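import Pool.Agent.Run7.h251.KW.Bonf
import Pool.Agent.Run7.h931.RL.Crd

/-!
# Limited independence, part 7: the values of polynomials modulo a prime
-/

set_option autoImplicit false

namespace Run7.h251.KW

open Finset
open Pool.Agent.Run7.h931.RL (cls)

/-- the value at `j` of the polynomial with coefficients `x` -/
def pval (p κ : ℕ) (x : Fin κ → ZMod p) (j : ℕ) : ZMod p := ∑ r : Fin κ, x r * (j : ZMod p) ^ (r : ℕ)

/-- the values at the elements of `J` -/
def ev (p κ : ℕ) (J : Finset ℕ) : (Fin κ → ZMod p) →+ (J → ZMod p) where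
  toFun x := fun j => pval p κ x j
  map_zero' := by
    funext j
    simp [pval]
  map_add' x y := by
    funext j
    simp [pval, add_mul, sum_add_distrib]

lemma ev_surj (p κ : ℕ) [Fact p.Prime] (J : Finset ℕ) (hJ : J ⊆ range p) (hc : J.card ≤ κ) :
    Function.Surjective (ev p κ J) := by
  classical
  intro y
  have hinj : Set.InjOn (fun j : J => ((j : ℕ) : ZMod p)) ((univ : Finset J) : Set J) := by
    intro j _ j' _ h
    have h1 : (((j : ℕ) : ZMod p)) = ((j' : ℕ) : ZMod p) := h
    rw [ZMod.natCast_eq_natCast_iff'] at h1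
    have h2 := mem_range.1 (hJ j.2)
    have h3 := mem_range.1 (hJ j'.2)
    rw [Nat.mod_eq_of_lt h2, Nat.mod_eq_of_lt h3] at h1
    exact Subtype.ext h1
  obtain ⟨P, hP⟩ : ∃ P, P = Lagrange.interpolate (univ : Finset J) (fun j : J => ((j : ℕ) : ZMod p)) y := ⟨_, rfl⟩
  have hdeg : P.degree < κ := by
    rw [hP]
    refine (Lagrange.degree_interpolate_lt y hinj).trans_le ?_
    rw [card_univ, Fintype.card_coe]
    exact_mod_cast hc
  refine ⟨fun r => P.coeff r, ?_⟩
  funext j
  show pval p κ (fun r => P.coeff r) j = y j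
  unfold pval
  have h1 : ∑ r : Fin κ, P.coeff r * ((j : ℕ) : ZMod p) ^ (r : ℕ) = P.eval ((j : ℕ) : ZMod p) := by
    rw [Fin.sum_univ_eq_sum_range (fun r => P.coeff r * ((j : ℕ) : ZMod p) ^ r) κ]
    by_cases hP0 : P = 0
    · simp [hP0]
    · rw [Polynomial.eval_eq_sum_range' ((Polynomial.natDegree_lt_iff_degree_lt hP0).2 hdeg)]
  rw [h1, hP]
  exact Lagrange.eval_interpolate_at_node y hinj (mem_univ j)

/-- preimages under a surjective homomorphism -/
lemma card_pre {G H : Type*} [AddGroup G] [AddGroup H] [Fintype G] [Fintype H] [DecidableEq H] (f : G →+ H)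
    (hf : Function.Surjective f) (S : Finset H) :
    (univ.filter fun g => f g ∈ S).card * Fintype.card H = Fintype.card G * S.card := by
  classical
  have h1 : ∀ y : H, (univ.filter fun g => f g = y).card = (univ.filter fun g => f g = 0).card := by
    intro y
    exact AddMonoidHom.card_fiber_eq_of_mem_range f (hf y) (hf 0)
  have h2 : ∀ T : Finset H, (univ.filter fun g => f g ∈ T).card = T.card * (univ.filter fun g => f g = 0).card := by
    intro T
    rw [card_eq_sum_card_fiberwise (f := fun g => f g) (t := T) (s := univ.filter fun g => f g ∈ T) (by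
      intro g hg
      have : g ∈ univ.filter fun g => f g ∈ T := by exact_mod_cast hg
      exact_mod_cast (mem_filter.1 this).2)]
    rw [← smul_eq_mul, ← sum_const]
    apply sum_congr rfl
    intro y hy
    rw [← h1 y]
    congr 1
    ext g
    simp only [mem_filter, mem_univ, true_and]
    constructor
    · rintro ⟨_, h⟩
      exact h
    · intro h
      exact ⟨by rw [h]; exact hy, h⟩
  have h3 := h2 univ
  simp only [mem_univ, filter_true, card_univ] at h3
  rw [h2 S, h3]
  ring

/-- the sequences `c j + M (b j + 1 + (f (j) mod p))`, `f` of degree less than `κ` -/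
def pseq (M p κ : ℕ) (c b : ℕ → ℕ) (x : Fin κ → ZMod p) (j : ℕ) : ℕ := c j + M * (b j + 1 + (pval p κ x j).val)

lemma cls_eq (M p c b : ℕ) [NeZero p] (hM : 1 ≤ M) : cls M c (c + M * b) (M * p) =
    (univ : Finset (ZMod p)).image (fun y => c + M * (b + 1 + y.val)) := by
  classical
  ext v
  unfold cls
  rw [mem_filter, mem_Ioc, mem_image]
  constructor
  · rintro ⟨⟨h1, h2⟩, h3⟩
    have h4 : M ∣ v - c := (Nat.modEq_iff_dvd' (by omega)).1 h3.symm
    obtain ⟨r, hr⟩ := h4
    have h5 : v = c + M * r := by omega
    have h6 : b < r := by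
      by_contra h
      have : M * r ≤ M * b := Nat.mul_le_mul_left _ (by omega)
      omega
    have h7 : r ≤ b + p := by
      by_contra h
      have : M * (b + p + 1) ≤ M * r := Nat.mul_le_mul_left _ (by omega)
      have h8 : M * (b + p + 1) = M * b + M * p + M := by ring
      omega
    have hp0 : 0 < p := Nat.pos_of_ne_zero (NeZero.ne p)
    refine ⟨((r - b - 1 : ℕ) : ZMod p), mem_univ _, ?_⟩
    rw [ZMod.val_natCast, Nat.mod_eq_of_lt (by omega), h5]
    congr 2
    omega
  · rintro ⟨y, _, rfl⟩
    have h1 : y.val < p := y.val_lt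
    have h2 : M * (b + 1 + y.val) = M * b + M * (1 + y.val) := by ring
    have h3 : M * (1 + y.val) ≤ M * p := Nat.mul_le_mul_left _ (by omega)
    have h4 : M * 1 ≤ M * (1 + y.val) := Nat.mul_le_mul_left _ (by omega)
    refine ⟨by omega, ?_⟩
    show (c + M * (b + 1 + y.val)) % M = c % M
    exact Nat.add_mul_mod_self_left _ _ _

/-- the values of the polynomials of degree less than `κ` are independent, any `κ` of them at a time -/
theorem poly_wise (M p κ m : ℕ) [Fact p.Prime] (hM : 1 ≤ M) (c b : ℕ → ℕ) (hm : m ≤ p) :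
    Wise κ m (fun j => cls M (c j) (c j + M * b j) (M * p)) (pseq M p κ c b) := by
  classical
  have hinj : ∀ j : ℕ, Function.Injective (fun y : ZMod p => c j + M * (b j + 1 + y.val)) := by
    intro j y y' h
    have h1 : M * (b j + 1 + y.val) = M * (b j + 1 + y'.val) := Nat.add_left_cancel h
    have h2 := Nat.eq_of_mul_eq_mul_left (by omega) h1
    exact ZMod.val_injective p (by omega)
  constructor
  · intro x j _
    show pseq M p κ c b x j ∈ cls M (c j) (c j + M * b j) (M * p)
    rw [cls_eq M p (c j) (b j) hM]
    exact mem_image_of_mem _ (mem_univ (pval p κ x j))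
  · intro J hJ hc B hB
    obtain ⟨V, hV⟩ : ∃ V : ℕ → Finset (ZMod p), V = fun j => univ.filter fun y => c j + M * (b j + 1 + y.val) ∈ B j := ⟨_, rfl⟩
    have hVc : ∀ j ∈ J, (V j).card = (B j).card := by
      intro j hj
      rw [← card_image_of_injective (V j) (hinj j)]
      congr 1
      ext v
      rw [mem_image, hV]
      constructor
      · rintro ⟨y, hy, rfl⟩
        simp only [mem_filter, mem_univ, true_and] at hy
        exact hy
      · intro hv
        have h1 : v ∈ cls M (c j) (c j + M * b j) (M * p) := hB j hj hv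
        rw [cls_eq M p (c j) (b j) hM, mem_image] at h1
        obtain ⟨y, _, rfl⟩ := h1
        exact ⟨y, by simp only [mem_filter, mem_univ, true_and]; exact hv, rfl⟩
    have hUc : ∀ j ∈ J, ((cls M (c j) (c j + M * b j) (M * p)).card) = p := by
      intro j _
      rw [cls_eq M p (c j) (b j) hM, card_image_of_injective _ (hinj j), card_univ, ZMod.card]
    have h1 := card_pre (ev p κ J) (ev_surj p κ J (hJ.trans (range_subset_range.2 hm)) hc) (Fintype.piFinset fun j : J => V j)
    have h2 : (univ.filter fun x => ev p κ J x ∈ Fintype.piFinset fun j : J => V j) =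
        (univ.filter fun x => ∀ j ∈ J, pseq M p κ c b x j ∈ B j) := by
      ext x
      simp only [mem_filter, mem_univ, true_and, Fintype.mem_piFinset]
      constructor
      · intro h j hj
        have := h ⟨j, hj⟩
        rw [hV] at this
        simp only [mem_filter, mem_univ, true_and] at this
        exact this
      · intro h j
        rw [hV]
        simp only [mem_filter, mem_univ, true_and]
        exact h j j.2
    rw [h2, Fintype.card_piFinset, Fintype.card_fun, Fintype.card_coe, ZMod.card] at h1
    have h3 : ∏ j ∈ J, ((cls M (c j) (c j + M * b j) (M * p)).card : ℝ) = (p : ℝ) ^ J.card := by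
      rw [prod_congr rfl fun j hj => by rw [hUc j hj], prod_const]
    have h4 : ∏ j ∈ J, ((B j).card : ℝ) = ((∏ j : J, (V j).card : ℕ) : ℝ) := by
      rw [Nat.cast_prod, Finset.prod_coe_sort J (fun j => ((V j).card : ℝ))]
      exact prod_congr rfl fun j hj => by rw [hVc j hj]
    rw [h3, h4]
    exact_mod_cast h1

end Run7.h251.KW
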