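import Mathlib

/-!
# Limited independence, part 1: Bonferroni's inequalities and the transfer principle
-/

set_option autoImplicit false

namespace Run7.h251.KW

open Finset

/-- elementary symmetric sums -/
noncomputable def esy (r : ℕ) (J : Finset ℕ) (α : ℕ → ℝ) : ℝ := ∑ K ∈ J.powersetCard r, ∏ j ∈ K, α j

lemma esy_zero (J : Finset ℕ) (α : ℕ → ℝ) : esy 0 J α = 1 := by
  unfold esy
  rw [powersetCard_zero, sum_singleton, prod_empty]

lemma esy_empty (r : ℕ) (α : ℕ → ℝ) : esy (r + 1) ∅ α = 0 := by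
  unfold esy
  rw [powersetCard_eq_empty.2 (by simp), sum_empty]

lemma esy_insert (r : ℕ) (J : Finset ℕ) (a : ℕ) (ha : a ∉ J) (α : ℕ → ℝ) :
    esy (r + 1) (insert a J) α = esy (r + 1) J α + α a * esy r J α := by
  unfold esy
  rw [powersetCard_succ_insert ha, sum_union, mul_sum]
  · congr 1
    rw [sum_image]
    · apply sum_congr rfl
      intro K hK
      rw [mem_powersetCard] at hK
      exact prod_insert fun h => ha (hK.1 h)
    · intro K hK K' hK' h
      have hK1 : K ∈ powersetCard r J := by exact_mod_cast hK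
      have hK1' : K' ∈ powersetCard r J := by exact_mod_cast hK'
      rw [mem_powersetCard] at hK1 hK1'
      have h1 : a ∉ K := fun h => ha (hK1.1 h)
      have h2 : a ∉ K' := fun h => ha (hK1'.1 h)
      rw [← erase_insert h1, ← erase_insert h2]
      have h := h
      rw [h]
  · rw [disjoint_left]
    intro K hK hK'
    rw [mem_powersetCard] at hK
    rw [mem_image] at hK'
    obtain ⟨K₁, _, rfl⟩ := hK'
    exact ha (hK.1 (mem_insert_self _ _))

lemma esy_nonneg (r : ℕ) (J : Finset ℕ) (α : ℕ → ℝ) (h : ∀ j ∈ J, 0 ≤ α j) : 0 ≤ esy r J α := by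
  unfold esy
  apply sum_nonneg
  intro K hK
  rw [mem_powersetCard] at hK
  exact prod_nonneg fun j hj => h j (hK.1 hj)

/-- Bonferroni's inequalities, for independent events -/
theorem bonf (J : Finset ℕ) (α : ℕ → ℝ) (h : ∀ j ∈ J, 0 ≤ α j ∧ α j ≤ 1) (κ : ℕ) :
    0 ≤ (-1) ^ κ * (∏ j ∈ J, (1 - α j) - ∑ r ∈ range κ, (-1) ^ r * esy r J α) ∧
    (-1) ^ κ * (∏ j ∈ J, (1 - α j) - ∑ r ∈ range κ, (-1) ^ r * esy r J α) ≤ esy κ J α := by
  induction J using Finset.induction_on generalizing κ with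
  | empty =>
    cases κ with
    | zero => simp [esy_zero]
    | succ κ =>
      rw [prod_empty, sum_range_succ', esy_zero, esy_empty]
      simp [esy_empty]
  | insert a J ha ih =>
    have h1 := h a (mem_insert_self _ _)
    have h2 : ∀ j ∈ J, 0 ≤ α j ∧ α j ≤ 1 := fun j hj => h j (mem_insert_of_mem hj)
    rw [prod_insert ha]
    cases κ with
    | zero =>
      simp only [pow_zero, range_zero, sum_empty, sub_zero, one_mul, esy_zero]
      have h3 : 0 ≤ ∏ j ∈ J, (1 - α j) := prod_nonneg fun j hj => by linarith [(h2 j hj).2]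
      have h4 : ∏ j ∈ J, (1 - α j) ≤ 1 := prod_le_one (fun j hj => by linarith [(h2 j hj).2]) fun j hj => by linarith [(h2 j hj).1]
      constructor
      · apply mul_nonneg (by linarith) h3
      · nlinarith
    | succ κ =>
      obtain ⟨a1, a2⟩ := ih h2 (κ + 1)
      obtain ⟨b1, b2⟩ := ih h2 κ
      have e1 : ∑ r ∈ range (κ + 1), (-1 : ℝ) ^ r * esy r (insert a J) α =
          (∑ r ∈ range (κ + 1), (-1 : ℝ) ^ r * esy r J α) - α a * ∑ r ∈ range κ, (-1 : ℝ) ^ r * esy r J α := by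
        rw [sum_range_succ', sum_range_succ' (fun r => (-1 : ℝ) ^ r * esy r J α), esy_zero, esy_zero]
        have : ∑ r ∈ range κ, (-1 : ℝ) ^ (r + 1) * esy (r + 1) (insert a J) α =
            ∑ r ∈ range κ, ((-1 : ℝ) ^ (r + 1) * esy (r + 1) J α - α a * ((-1 : ℝ) ^ r * esy r J α)) := by
          apply sum_congr rfl
          intro r _
          rw [esy_insert r J a ha, pow_succ]
          ring
        rw [this, sum_sub_distrib, mul_sum]
        ring
      rw [e1, esy_insert κ J a ha]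
      have e2 : (-1 : ℝ) ^ (κ + 1) * ((1 - α a) * ∏ j ∈ J, (1 - α j) -
          ((∑ r ∈ range (κ + 1), (-1 : ℝ) ^ r * esy r J α) - α a * ∑ r ∈ range κ, (-1 : ℝ) ^ r * esy r J α)) =
          (-1) ^ (κ + 1) * (∏ j ∈ J, (1 - α j) - ∑ r ∈ range (κ + 1), (-1) ^ r * esy r J α) +
          α a * ((-1) ^ κ * (∏ j ∈ J, (1 - α j) - ∑ r ∈ range κ, (-1) ^ r * esy r J α)) := by
        rw [pow_succ]
        ring
      rw [e2]
      constructor
      · have := mul_nonneg h1.1 b1
        linarith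
      · have := mul_le_mul_of_nonneg_left b2 h1.1
        linarith

lemma esy_prod (J : Finset ℕ) (α : ℕ → ℝ) (h : ∀ j ∈ J, 0 ≤ α j) (t : ℝ) (ht : 0 ≤ t) (κ : ℕ) :
    t ^ κ * esy κ J α ≤ ∏ j ∈ J, (1 + t * α j) := by
  induction J using Finset.induction_on generalizing κ with
  | empty =>
    cases κ with
    | zero => simp [esy_zero]
    | succ κ => simp [esy_empty]
  | insert a J ha ih =>
    have h1 := h a (mem_insert_self _ _)
    have h2 : ∀ j ∈ J, 0 ≤ α j := fun j hj => h j (mem_insert_of_mem hj)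
    have h3 : ∀ κ, t ^ κ * esy κ J α ≤ ∏ j ∈ J, (1 + t * α j) := fun κ => ih h2 κ
    have h4 : 0 ≤ ∏ j ∈ J, (1 + t * α j) := prod_nonneg fun j hj => by have := mul_nonneg ht (h2 j hj); linarith
    rw [prod_insert ha]
    cases κ with
    | zero =>
      have := h3 0
      rw [esy_zero] at this ⊢
      have h5 := mul_nonneg (mul_nonneg ht h1) h4
      nlinarith
    | succ κ =>
      rw [esy_insert κ J a ha]
      have b1 := h3 (κ + 1)
      have b2 := mul_le_mul_of_nonneg_left (h3 κ) (mul_nonneg ht h1)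
      have e1 : t ^ (κ + 1) * (esy (κ + 1) J α + α a * esy κ J α) =
          t ^ (κ + 1) * esy (κ + 1) J α + t * α a * (t ^ κ * esy κ J α) := by rw [pow_succ]; ring
      rw [e1]
      linarith

/-- the elementary symmetric sums are small for large `κ` -/
lemma esy_le (J : Finset ℕ) (α : ℕ → ℝ) (h : ∀ j ∈ J, 0 ≤ α j) (κ : ℕ) :
    esy κ J α ≤ Real.exp (Real.exp 1 * (∑ j ∈ J, α j) - κ) := by
  have h1 := esy_prod J α h (Real.exp 1) (Real.exp_pos 1).le κ
  have h2 : ∏ j ∈ J, (1 + Real.exp 1 * α j) ≤ Real.exp (Real.exp 1 * ∑ j ∈ J, α j) := by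
    rw [mul_sum, Real.exp_sum]
    apply Finset.prod_le_prod
    · intro j hj
      have := mul_nonneg (Real.exp_pos 1).le (h j hj)
      linarith
    · intro j _
      rw [add_comm]
      exact Real.add_one_le_exp _
  have h3 : Real.exp 1 ^ κ = Real.exp κ := by rw [← Real.exp_nat_mul, mul_one]
  rw [h3] at h1
  rw [Real.exp_sub, le_div_iff₀ (Real.exp_pos _)]
  linarith

/-- a family of sequences `σ i` whose first `m` terms `σ i j ∈ U j` are uniform and independent, any `κ` of them at a time -/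
def Wise (κ m : ℕ) (U : ℕ → Finset ℕ) {ι : Type*} [Fintype ι] (σ : ι → ℕ → ℕ) : Prop :=
  (∀ i, ∀ j < m, σ i j ∈ U j) ∧ ∀ J : Finset ℕ, J ⊆ range m → J.card ≤ κ → ∀ B : ℕ → Finset ℕ, (∀ j ∈ J, B j ⊆ U j) →
    ((univ.filter fun i => ∀ j ∈ J, σ i j ∈ B j).card : ℝ) * ∏ j ∈ J, ((U j).card : ℝ) =
      Fintype.card ι * ∏ j ∈ J, ((B j).card : ℝ)

lemma Wise.mono {κ m k : ℕ} {U : ℕ → Finset ℕ} {ι : Type*} [Fintype ι] {σ : ι → ℕ → ℕ} (h : Wise κ m U σ) (hk : k ≤ m) :
    Wise κ k U σ :=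
  ⟨fun i j hj => h.1 i j (by omega), fun J hJ hc B hB => h.2 J (hJ.trans (range_subset_range.2 hk)) hc B hB⟩

/-- the transfer principle -/
theorem transfer {κ m : ℕ} {U : ℕ → Finset ℕ} {ι : Type*} [Fintype ι] {σ : ι → ℕ → ℕ} (h : Wise κ m U σ)
    (hU : ∀ j < m, 0 < (U j).card) (B : ℕ → Finset ℕ) (hB : ∀ j < m, B j ⊆ U j) :
    |((univ.filter fun i => ∀ j < m, σ i j ∉ B j).card : ℝ) - Fintype.card ι * ∏ j ∈ range m, (1 - (B j).card / (U j).card : ℝ)| ≤
      Fintype.card ι * Real.exp (Real.exp 1 * (∑ j ∈ range m, ((B j).card / (U j).card : ℝ)) - κ) := by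
  classical
  obtain ⟨α, hα⟩ : ∃ α : ℕ → ℝ, α = fun j => ((B j).card / (U j).card : ℝ) := ⟨_, rfl⟩
  obtain ⟨x, hx⟩ : ∃ x : ι → ℕ → ℝ, x = fun i j => if σ i j ∈ B j then 1 else 0 := ⟨_, rfl⟩
  have hα0 : ∀ j ∈ range m, 0 ≤ α j ∧ α j ≤ 1 := by
    intro j hj
    rw [mem_range] at hj
    have h1 : (0 : ℝ) < (U j).card := by exact_mod_cast hU j hj
    have h2 : ((B j).card : ℝ) ≤ (U j).card := by exact_mod_cast card_le_card (hB j hj)
    rw [hα]
    exact ⟨by positivity, by simp only; rwa [div_le_one h1]⟩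
  have hx0 : ∀ i, ∀ j ∈ range m, 0 ≤ x i j ∧ x i j ≤ 1 := by
    intro i j _
    rw [hx]
    simp only
    split_ifs <;> norm_num
  have hι : (0 : ℝ) ≤ Fintype.card ι := Nat.cast_nonneg _
  -- the elementary symmetric sums agree
  have hes : ∀ r ≤ κ, ∑ i, esy r (range m) (x i) = Fintype.card ι * esy r (range m) α := by
    intro r hr
    unfold esy
    rw [sum_comm, mul_sum]
    apply sum_congr rfl
    intro K hK
    rw [mem_powersetCard] at hK
    have h1 : ∀ i, ∏ j ∈ K, x i j = if (∀ j ∈ K, σ i j ∈ B j) then 1 else 0 := by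
      intro i
      rw [hx]
      simp only
      rw [Finset.prod_ite_zero, prod_const_one]
    rw [sum_congr rfl fun i _ => h1 i]
    have h2 : ∑ i, (if (∀ j ∈ K, σ i j ∈ B j) then (1 : ℝ) else 0) = ((univ.filter fun i => ∀ j ∈ K, σ i j ∈ B j).card : ℝ) := by
      rw [card_filter]
      push_cast
      rfl
    rw [h2]
    have h3 := h.2 K hK.1 (by omega) B (fun j hj => hB j (by have := hK.1 hj; rwa [mem_range] at this))
    have h4 : (0 : ℝ) < ∏ j ∈ K, ((U j).card : ℝ) := prod_pos fun j hj => by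
      have := hK.1 hj
      rw [mem_range] at this
      exact_mod_cast hU j this
    rw [hα]
    simp only
    rw [prod_div_distrib, ← mul_div_assoc, eq_div_iff h4.ne']
    exact h3
  have hcount : ∑ i, ∏ j ∈ range m, (1 - x i j) = ((univ.filter fun i => ∀ j < m, σ i j ∉ B j).card : ℝ) := by
    rw [card_filter]
    push_cast
    apply sum_congr rfl
    intro i _
    by_cases hi : ∀ j < m, σ i j ∉ B j
    · rw [if_pos hi]
      apply prod_eq_one
      intro j hj
      rw [mem_range] at hj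
      rw [hx]
      simp only
      rw [if_neg (hi j hj), sub_zero]
    · rw [if_neg hi]
      push Not at hi
      obtain ⟨j, hj, hj'⟩ := hi
      apply prod_eq_zero (mem_range.2 hj)
      rw [hx]
      simp only
      rw [if_pos hj', sub_self]
  have b1 := bonf (range m) α hα0 κ
  have b2 : 0 ≤ ∑ i, ((-1 : ℝ) ^ κ * (∏ j ∈ range m, (1 - x i j) - ∑ r ∈ range κ, (-1) ^ r * esy r (range m) (x i))) ∧
      ∑ i, ((-1 : ℝ) ^ κ * (∏ j ∈ range m, (1 - x i j) - ∑ r ∈ range κ, (-1) ^ r * esy r (range m) (x i))) ≤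
        Fintype.card ι * esy κ (range m) α := by
    constructor
    · exact sum_nonneg fun i _ => (bonf (range m) (x i) (hx0 i) κ).1
    · rw [← hes κ le_rfl]
      exact sum_le_sum fun i _ => (bonf (range m) (x i) (hx0 i) κ).2
  have e1 : ∑ i, ((-1 : ℝ) ^ κ * (∏ j ∈ range m, (1 - x i j) - ∑ r ∈ range κ, (-1) ^ r * esy r (range m) (x i))) =
      (-1 : ℝ) ^ κ * (((univ.filter fun i => ∀ j < m, σ i j ∉ B j).card : ℝ) -
        Fintype.card ι * ∑ r ∈ range κ, (-1) ^ r * esy r (range m) α) := by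
    rw [← mul_sum, sum_sub_distrib, hcount]
    congr 2
    rw [sum_comm, mul_sum]
    apply sum_congr rfl
    intro r hr
    rw [mem_range] at hr
    rw [← mul_sum, hes r hr.le]
    ring
  rw [e1] at b2
  have b3 := esy_le (range m) α (fun j hj => (hα0 j hj).1) κ
  have b4 := mul_le_mul_of_nonneg_left b3 hι
  have hα' : (∑ j ∈ range m, ((B j).card / (U j).card : ℝ)) = ∑ j ∈ range m, α j := by rw [hα]
  have hα'' : ∏ j ∈ range m, (1 - (B j).card / (U j).card : ℝ) = ∏ j ∈ range m, (1 - α j) := by rw [hα]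
  rw [hα', hα'']
  refine le_trans ?_ b4
  have c1 := mul_nonneg hι b1.1
  have c2 := mul_le_mul_of_nonneg_left b1.2 hι
  obtain ⟨X, hX⟩ : ∃ X : ℝ, X = ((univ.filter fun i => ∀ j < m, σ i j ∉ B j).card : ℝ) := ⟨_, rfl⟩
  obtain ⟨Y, hY⟩ : ∃ Y : ℝ, Y = ∏ j ∈ range m, (1 - α j) := ⟨_, rfl⟩
  obtain ⟨S, hS⟩ : ∃ S : ℝ, S = ∑ r ∈ range κ, (-1) ^ r * esy r (range m) α := ⟨_, rfl⟩
  obtain ⟨E, hE⟩ : ∃ E : ℝ, E = esy κ (range m) α := ⟨_, rfl⟩
  rw [← hX, ← hS, ← hE] at b2
  rw [← hY, ← hS] at c1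
  rw [← hY, ← hS, ← hE] at c2
  rw [← hX, ← hY, ← hE]
  rcases neg_one_pow_eq_or ℝ κ with hk | hk
  · rw [hk] at b2 c1 c2
    rw [abs_le]
    constructor <;> nlinarith [b2.1, b2.2]
  · rw [hk] at b2 c1 c2
    rw [abs_le]
    constructor <;> nlinarith [b2.1, b2.2]

end Run7.h251.KW
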