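import Pool.Agent.Run7.h931.RL.Law
import Pool.Agent.Run7.h251.KW.Bonf

/-!
# Limited independence, part 4: first moments
-/

set_option autoImplicit false

namespace Run7.h251.KW

open Finset Filter
open Pool.Agent.Run7.h931.RS (Pw one_le_Pw ev_log)
open Pool.Agent.Run7.h931.RL (cls cls_card hitc hitc_sub hitc_card pa_lo tot_P ev_pow lft sur sur_le)

/-- a lower bound for the number of the hits (the computation is in `RL.First`) -/
theorem hit_lo (T a w M : ℕ) (hM1 : 1 ≤ M) (hM : ∀ p : ℕ, p.Prime → (p ∣ M ↔ p ≤ w)) : ∃ K : ℝ, 1 ≤ K ∧ ∀ᶠ N : ℕ in atTop, ∀ q : ℕ,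
    (N : ℝ) ≤ q * Real.log N ^ a → q ≤ N → ∀ c b : ℕ, b ≤ T * N → Real.log N ^ 3 ≤ (cls M c b q).card ∧
      ∀ n : ℕ, n ≤ N → (n + c).Coprime M →
      (Pw w / Real.log N * (1 - K / Real.log N)) * (cls M c b q).card ≤ (hitc M c b q n).card := by
  obtain ⟨K, hK, h1⟩ := pa_lo T a M hM1
  refine ⟨K + 1, by linarith, ?_⟩
  filter_upwards [h1, ev_pow (a + 1) M (Nat.cast_nonneg M), ev_pow (a + 3) (2 * M) (by positivity), ev_pow a (2 * M) (by positivity),
    ev_log (K + 2), eventually_ge_atTop 3] with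
    N g1 g2 g2' g2'' g3 g4 q hq hqN c b hb
  have hN3 : (3 : ℝ) ≤ N := by exact_mod_cast g4
  have hM0 : (0 : ℝ) < M := by exact_mod_cast hM1
  have hP := one_le_Pw w
  obtain ⟨L, hL⟩ : ∃ L, L = Real.log (N : ℝ) := ⟨_, rfl⟩
  have g1' := fun (n : ℕ) (hn : n ≤ N) (hj : (n + c).Coprime M) => g1 (n + c) hj (n + b) q (by nlinarith [hb]) hq hqN
  rw [← hL] at g2 g2' g2'' g3 hq g1' ⊢
  have hL0 : 0 < L := by linarith
  have hq0 : (0 : ℝ) < q := by
    rcases Nat.eq_zero_or_pos q with h0 | h0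
    · rw [h0, Nat.cast_zero, zero_mul] at hq
      linarith
    · exact_mod_cast h0
  have hMq : (M : ℝ) * L ≤ q := by
    have a1 : (M : ℝ) * L * L ^ a ≤ q * L ^ a := by
      have : (M : ℝ) * L ^ (a + 1) = M * L * L ^ a := by rw [pow_succ]; ring
      rw [← this]
      exact g2.trans hq
    exact le_of_mul_le_mul_right a1 (by positivity)
  have hMq3 : 2 * (M : ℝ) * L ^ 3 ≤ q := by
    have a1 : 2 * (M : ℝ) * L ^ 3 * L ^ a ≤ q * L ^ a := by
      have : 2 * (M : ℝ) * L ^ (a + 3) = 2 * M * L ^ 3 * L ^ a := by rw [pow_add]; ring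
      rw [← this]
      exact g2'.trans hq
    exact le_of_mul_le_mul_right a1 (by positivity)
  have hMq2 : 2 * (M : ℝ) ≤ q := by
    have a1 : 2 * (M : ℝ) * L ^ a ≤ q * L ^ a := g2''.trans hq
    exact le_of_mul_le_mul_right a1 (by positivity)
  have hcc := abs_le.1 (cls_card M c b q hM1)
  constructor
  · have h1 : (2 * L ^ 3) ≤ q / M := by rw [le_div_iff₀ hM0]; linarith
    have h2 : (2 : ℝ) ≤ q / M := by rw [le_div_iff₀ hM0]; linarith
    linarith [hcc.1]
  intro n hn hj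
  obtain ⟨t, ht⟩ : ∃ t, t = Pw w / L * (1 - (K + 1) / L) := ⟨_, rfl⟩
  have hKL : (K + 1) / L ≤ 1 := by rw [div_le_one hL0]; linarith
  have ht0 : 0 ≤ t := by rw [ht]; exact mul_nonneg (by positivity) (by linarith)
  rw [← ht]
  obtain ⟨U, hU⟩ : ∃ U : ℝ, U = (cls M c b q).card := ⟨_, rfl⟩
  obtain ⟨A, hA⟩ : ∃ A : ℝ, A = (hitc M c b q n).card := ⟨_, rfl⟩
  have f1 := hcc.2
  have f2 := g1' n hn hj
  rw [← hitc_card] at f2
  rw [← hU] at f1 ⊢
  rw [← hA] at f2 ⊢
  have hU0 : 0 ≤ U := by rw [hU]; exact Nat.cast_nonneg _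
  have h2 := tot_P w M hM1 hM
  have hφ : (0 : ℝ) < Nat.totient M := by exact_mod_cast Nat.totient_pos.2 hM1
  have h3 : (q / Nat.totient M : ℝ) = q / M * Pw w := by
    rw [div_mul_eq_mul_div, div_eq_div_iff hφ.ne' hM0.ne', ← h2]
    ring
  rw [h3] at f2
  have h4 : U ≤ q / M * (1 + 1 / L) := by
    have : 1 ≤ (q : ℝ) / M * (1 / L) := by
      rw [div_mul_div_comm, mul_one, le_div_iff₀ (by positivity)]
      linarith
    linarith
  have h5 : t * U ≤ t * (q / M * (1 + 1 / L)) := mul_le_mul_of_nonneg_left h4 ht0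
  have h6 : t * (q / M * (1 + 1 / L)) ≤ q / M * Pw w / L - K * (q / M * Pw w / L ^ 2) := by
    have e1 : t * (q / M * (1 + 1 / L)) = (q / M * Pw w / L) * ((1 - (K + 1) / L) * (1 + 1 / L)) := by rw [ht]; ring
    have e2 : q / M * Pw w / L - K * (q / M * Pw w / L ^ 2) = (q / M * Pw w / L) * (1 - K / L) := by
      field_simp
    rw [e1, e2]
    apply mul_le_mul_of_nonneg_left _ (by positivity)
    have e3 : (1 - (K + 1) / L) * (1 + 1 / L) = 1 - K / L - (K + 1) / L * (1 / L) := by ring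
    rw [e3]
    have : 0 ≤ (K + 1) / L * (1 / L) := by positivity
    linarith
  linarith

/-- the number of the sequences of the family for which `n` survives -/
theorem firstF (T a w M : ℕ) (hM1 : 1 ≤ M) (hM : ∀ p : ℕ, p.Prime → (p ∣ M ↔ p ≤ w)) : ∃ K : ℝ, 1 ≤ K ∧ ∀ᶠ N : ℕ in atTop, ∀ q : ℕ,
    (N : ℝ) ≤ q * Real.log N ^ a → q ≤ N → ∀ (κ m : ℕ) (c b : ℕ → ℕ), (∀ j, b j ≤ T * N) →
      ∀ (ι : Type) [Fintype ι] (σ : ι → ℕ → ℕ), Wise κ m (fun j => cls M (c j) (b j) q) σ →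
      ∀ n : ℕ, n ≤ N → ∀ t : ℕ, t ≤ lft M c m n →
      ((univ.filter fun i => ∀ j < m, ¬ (n + σ i j).Prime).card : ℝ) ≤ Fintype.card ι *
        (Real.exp (-(t * (Pw w / Real.log N * (1 - K / Real.log N)))) +
          Real.exp (Real.exp 1 * (t * (Pw w / Real.log N + 1 / Real.log N ^ 3)) - κ)) := by
  classical
  obtain ⟨K, hK, h1⟩ := hit_lo T a w M hM1 hM
  refine ⟨K, hK, ?_⟩
  filter_upwards [h1, ev_log (K + 1)] with N g1 g3 q hq hqN κ m c b hb ι _ σ hσ n hn t ht
  have g1' := fun j => g1 q hq hqN (c j) (b j) (hb j)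
  obtain ⟨L, hL⟩ : ∃ L, L = Real.log (N : ℝ) := ⟨_, rfl⟩
  rw [← hL] at g1' g3 ⊢
  have hL0 : 0 < L := by linarith
  have hP := one_le_Pw w
  obtain ⟨τ, hτ⟩ : ∃ τ, τ = Pw w / L * (1 - K / L) := ⟨_, rfl⟩
  rw [← hτ] at g1' ⊢
  have hKL : K / L ≤ 1 := by rw [div_le_one hL0]; linarith
  have hτ0 : 0 ≤ τ := by rw [hτ]; exact mul_nonneg (by positivity) (by linarith)
  have hτP : τ ≤ Pw w / L := by
    rw [hτ]
    apply mul_le_of_le_one_right (by positivity)
    have : 0 ≤ K / L := by positivity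
    linarith
  have hUr : ∀ j, L ^ 3 ≤ ((cls M (c j) (b j) q).card : ℝ) := fun j => (g1' j).1
  have hU0 : ∀ j, (0 : ℝ) < ((cls M (c j) (b j) q).card : ℝ) := fun j => lt_of_lt_of_le (by positivity) (hUr j)
  obtain ⟨J, hJ1, hJ2⟩ := Finset.exists_subset_card_eq ht
  have hJ3 : ∀ j ∈ J, j < m ∧ (n + c j).Coprime M := by
    intro j hj
    have := hJ1 hj
    rw [mem_filter, mem_range] at this
    exact this
  have hex : ∀ j, ∃ B : Finset ℕ, j ∈ J → B ⊆ hitc M (c j) (b j) q n ∧ B.card = ⌈τ * (cls M (c j) (b j) q).card⌉₊ := by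
    intro j
    by_cases hj : j ∈ J
    · obtain ⟨B, hB1, hB2⟩ := Finset.exists_subset_card_eq (s := hitc M (c j) (b j) q n)
        (n := ⌈τ * (cls M (c j) (b j) q).card⌉₊) (Nat.ceil_le.2 ((g1' j).2 n hn (hJ3 j hj).2))
      exact ⟨B, fun _ => ⟨hB1, hB2⟩⟩
    · exact ⟨∅, fun h => absurd h hj⟩
  choose B₀ hB₀ using hex
  obtain ⟨B, hB⟩ : ∃ B : ℕ → Finset ℕ, B = fun j => if j ∈ J then B₀ j else ∅ := ⟨_, rfl⟩
  have hBs : ∀ j < m, B j ⊆ cls M (c j) (b j) q := by
    intro j _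
    rw [hB]
    simp only
    split_ifs with hj
    · exact (hB₀ j hj).1.trans (hitc_sub _ _ _ _ _)
    · exact empty_subset _
  have hJm : J ⊆ range m := fun j hj => mem_range.2 (hJ3 j hj).1
  have htr := transfer hσ (fun j _ => by exact_mod_cast hU0 j) B hBs
  have e1 : ∀ j ∈ J, τ ≤ ((B j).card : ℝ) / (cls M (c j) (b j) q).card ∧
      ((B j).card : ℝ) / (cls M (c j) (b j) q).card ≤ Pw w / L + 1 / L ^ 3 := by
    intro j hj
    have f1 : B j = B₀ j := by rw [hB]; simp only; rw [if_pos hj]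
    rw [f1, (hB₀ j hj).2]
    have f2 := Nat.le_ceil (τ * ((cls M (c j) (b j) q).card : ℝ))
    have f3 := (Nat.ceil_lt_add_one (mul_nonneg hτ0 (hU0 j).le)).le
    constructor
    · rw [le_div_iff₀ (hU0 j)]
      exact f2
    · rw [div_le_iff₀ (hU0 j)]
      have f4 : 1 ≤ 1 / L ^ 3 * ((cls M (c j) (b j) q).card : ℝ) := by
        rw [div_mul_eq_mul_div, one_mul, le_div_iff₀ (by positivity), one_mul]
        exact hUr j
      have f5 := mul_le_mul_of_nonneg_right hτP (hU0 j).le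
      nlinarith
  have e0 : ∀ j ∈ range m, j ∉ J → ((B j).card : ℝ) / (cls M (c j) (b j) q).card = 0 := by
    intro j _ hj
    have f1 : B j = ∅ := by rw [hB]; simp only; rw [if_neg hj]
    rw [f1, card_empty, Nat.cast_zero, zero_div]
  have e2 : ∑ j ∈ range m, ((B j).card : ℝ) / (cls M (c j) (b j) q).card ≤ t * (Pw w / L + 1 / L ^ 3) := by
    rw [← sum_subset hJm (fun j h1 h2 => e0 j h1 h2)]
    refine (sum_le_sum fun j hj => (e1 j hj).2).trans (le_of_eq ?_)
    rw [sum_const, hJ2, nsmul_eq_mul]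
  have e3 : ∏ j ∈ range m, (1 - ((B j).card : ℝ) / (cls M (c j) (b j) q).card) ≤ Real.exp (-(t * τ)) := by
    rw [← prod_subset hJm (fun j h1 h2 => by rw [e0 j h1 h2, sub_zero])]
    calc ∏ j ∈ J, (1 - ((B j).card : ℝ) / (cls M (c j) (b j) q).card) ≤ ∏ _j ∈ J, Real.exp (-τ) := by
          apply Finset.prod_le_prod
          · intro j hj
            have : ((B j).card : ℝ) ≤ (cls M (c j) (b j) q).card := by exact_mod_cast card_le_card (hBs j (hJ3 j hj).1)
            have := (div_le_one (hU0 j)).2 this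
            linarith
          · intro j hj
            have f1 := Real.add_one_le_exp (-τ)
            have f2 := (e1 j hj).1
            linarith
      _ = _ := by
          rw [prod_const, hJ2, ← Real.exp_nat_mul]
          congr 1
          ring
  have hι : (0 : ℝ) ≤ Fintype.card ι := Nat.cast_nonneg _
  have e4 : ((univ.filter fun i => ∀ j < m, ¬ (n + σ i j).Prime).card : ℝ) ≤
      ((univ.filter fun i => ∀ j < m, σ i j ∉ B j).card : ℝ) := by
    have : (univ.filter fun i => ∀ j < m, ¬ (n + σ i j).Prime) ⊆ (univ.filter fun i => ∀ j < m, σ i j ∉ B j) := by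
      intro i hi
      rw [mem_filter] at hi ⊢
      refine ⟨mem_univ i, fun j hj hmem => ?_⟩
      rw [hB] at hmem
      simp only at hmem
      by_cases hjJ : j ∈ J
      · rw [if_pos hjJ] at hmem
        have := (hB₀ j hjJ).1 hmem
        unfold hitc at this
        rw [mem_filter] at this
        exact hi.2 j hj this.2
      · rw [if_neg hjJ] at hmem
        simp at hmem
    exact_mod_cast card_le_card this
  have e5 := (abs_le.1 htr).2
  have e6 := mul_le_mul_of_nonneg_left e3 hι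
  have e7 : (Fintype.card ι : ℝ) * Real.exp (Real.exp 1 * (∑ j ∈ range m, ((B j).card : ℝ) / (cls M (c j) (b j) q).card) - κ) ≤
      Fintype.card ι * Real.exp (Real.exp 1 * (t * (Pw w / L + 1 / L ^ 3)) - κ) := by
    apply mul_le_mul_of_nonneg_left _ hι
    apply Real.exp_le_exp.2
    have := mul_le_mul_of_nonneg_left e2 (Real.exp_pos 1).le
    linarith
  rw [mul_add]
  linarith

end Run7.h251.KW
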