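import Pool.Agent.Run7.h251.KW.Sec
import Pool.Agent.Run7.h251.KW.Cheb
import Pool.Agent.Run7.h251.KW.First

/-!
# Limited independence, part 5: above and below the threshold
-/

set_option autoImplicit false

namespace Run7.h251.KW

open Finset Filter
open Pool.Agent.Run7.h931.RS (Pw Fw one_le_Pw one_le_Fw wt wt_nonneg ev_log sv sharp)
open Pool.Agent.Run7.h931.RL (Cr cls hitc hitc_sub lft sur sur_le sur_at lf lf_add lft_eq Zr Zr_le rest rest_at rest_eq)

/-- the `1 ≤ n ≤ N` for which all `n + s 0, ..., n + s (m - 1)` are composite -/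
def surv (N m : ℕ) (s : ℕ → ℕ) : Finset ℕ := (Icc 1 N).filter fun n => ∀ j < m, ¬ (n + s j).Prime

lemma surv_sv (N m : ℕ) (s : ℕ → ℕ) : sv (Icc 1 N) (fun j : Fin m => s j) = surv N m s := by
  unfold sv surv
  ext n
  rw [mem_filter, mem_filter, Fin.forall_iff]

lemma exp_one_lt : Real.exp 1 < 2.7183 := by
  have := Real.exp_one_lt_d9
  linarith

/-- the number of survivors, on average -/
theorem meanF (T a w M : ℕ) (hM1 : 1 ≤ M) (hM : ∀ p : ℕ, p.Prime → (p ∣ M ↔ p ≤ w)) : ∃ K : ℝ, 1 ≤ K ∧ ∀ᶠ N : ℕ in atTop, ∀ q : ℕ,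
    (N : ℝ) ≤ q * Real.log N ^ a → q ≤ N → ∀ (κ m : ℕ) (c b : ℕ → ℕ), (∀ j, b j ≤ T * N) →
      ∀ (ι : Type) [Fintype ι] (σ : ι → ℕ → ℕ), Wise κ m (fun j => cls M (c j) (b j) q) σ →
      ∀ t : ℕ, t ≤ sur M c m → ∑ i, ((surv N m (σ i)).card : ℝ) ≤ N * (Fintype.card ι *
        (Real.exp (-(t * (Pw w / Real.log N * (1 - K / Real.log N)))) +
          Real.exp (Real.exp 1 * (t * (Pw w / Real.log N + 1 / Real.log N ^ 3)) - κ))) := by
  classical
  obtain ⟨K, hK, h1⟩ := firstF T a w M hM1 hM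
  refine ⟨K, hK, ?_⟩
  filter_upwards [h1] with N g1 q hq hqN κ m c b hb ι _ σ hσ t ht
  have h2 : ∑ i, ((surv N m (σ i)).card : ℝ) = ∑ n ∈ Icc 1 N, ((univ.filter fun i => ∀ j < m, ¬ (n + σ i j).Prime).card : ℝ) := by
    have e1 : ∀ i, ((surv N m (σ i)).card : ℝ) = ∑ n ∈ Icc 1 N, if (∀ j < m, ¬ (n + σ i j).Prime) then (1 : ℝ) else 0 := by
      intro i
      unfold surv
      rw [card_filter]
      push_cast
      rfl
    rw [sum_congr rfl fun i _ => e1 i, sum_comm]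
    apply sum_congr rfl
    intro n _
    rw [card_filter]
    push_cast
    rfl
  rw [h2]
  have h3 := sum_le_sum fun n (hn : n ∈ Icc 1 N) => g1 q hq hqN κ m c b hb ι σ hσ n (mem_Icc.1 hn).2 t
    (ht.trans (sur_le M c m n))
  refine h3.trans (le_of_eq ?_)
  rw [sum_const, Nat.card_Icc, Nat.add_sub_cancel, nsmul_eq_mul]

/-- above the threshold -/
theorem one_F (T a w M : ℕ) (hM1 : 1 ≤ M) (hM : ∀ p : ℕ, p.Prime → (p ∣ M ↔ p ≤ w)) (ε : ℝ) (hε : 0 < ε) (hε1 : ε ≤ 1) :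
    ∀ᶠ N : ℕ in atTop, ∀ q : ℕ,
    (N : ℝ) ≤ q * Real.log N ^ a → q ≤ N → ∀ (κ m : ℕ) (c b : ℕ → ℕ), 8 * Real.log N ≤ κ → (∀ j, b j ≤ T * N) →
      ∀ (ι : Type) [Fintype ι] (σ : ι → ℕ → ℕ), Wise κ m (fun j => cls M (c j) (b j) q) σ →
      (1 + ε) * Real.log N ^ 2 ≤ Pw w * sur M c m →
      ((univ.filter fun i => (surv N m (σ i)).Nonempty).card : ℝ) ≤ (N : ℝ) ^ (-(ε / 2)) * Fintype.card ι := by
  classical
  obtain ⟨K, hK, h1⟩ := meanF T a w M hM1 hM
  have hP := one_le_Pw w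
  filter_upwards [h1, ev_log ((2 * K + 1) / (ε / 2)), ev_log (Pw w + 10), eventually_ge_atTop 3] with
    N g1 g2 g3 g4 q hq hqN κ m c b hκ hb ι _ σ hσ hm
  obtain ⟨L, hL⟩ : ∃ L, L = Real.log (N : ℝ) := ⟨_, rfl⟩
  have hN0 : (0 : ℝ) < N := by exact_mod_cast (by omega : 0 < N)
  obtain ⟨t, ht⟩ : ∃ t, t = ⌈(1 + ε) * L ^ 2 / Pw w⌉₊ := ⟨_, rfl⟩
  rw [← hL] at g2 g3 hm hκ
  have hL10 : 10 ≤ L := by linarith
  have hL0 : 0 < L := by linarith
  have hPpos : 0 < Pw w := by linarith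
  have hts : t ≤ sur M c m := by
    rw [ht]
    apply Nat.ceil_le.2
    rw [div_le_iff₀ hPpos]
    linarith
  have k1 := g1 q hq hqN κ m c b hb ι σ hσ t hts
  rw [← hL] at k1
  have hι : (0 : ℝ) ≤ Fintype.card ι := Nat.cast_nonneg _
  have k2 : ((univ.filter fun i => (surv N m (σ i)).Nonempty).card : ℝ) ≤ ∑ i, ((surv N m (σ i)).card : ℝ) := by
    rw [card_filter]
    push_cast
    apply sum_le_sum
    intro i _
    split_ifs with h
    · exact_mod_cast h.card_pos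
    · exact Nat.cast_nonneg _
  refine k2.trans (k1.trans ?_)
  have e0 : (N : ℝ) = Real.exp L := by rw [hL, Real.exp_log hN0]
  have ht1 : (1 + ε) * L ^ 2 / Pw w ≤ t := by rw [ht]; exact Nat.le_ceil _
  have ht2 : (t : ℝ) ≤ (1 + ε) * L ^ 2 / Pw w + 1 := by
    rw [ht]
    exact (Nat.ceil_lt_add_one (by positivity)).le
  have hKL : K ≤ L := by
    rw [div_le_iff₀ (by positivity)] at g2
    nlinarith
  -- the first exponential
  have f1 : -(t * (Pw w / L * (1 - K / L))) ≤ -((1 + ε) * L) + 2 * K := by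
    have h0 : 0 ≤ Pw w / L * (1 - K / L) := by
      apply mul_nonneg (by positivity)
      have : K / L ≤ 1 := by rwa [div_le_one hL0]
      linarith
    have h2 := mul_le_mul_of_nonneg_right ht1 h0
    have h3 : (1 + ε) * L ^ 2 / Pw w * (Pw w / L * (1 - K / L)) = (1 + ε) * (L - K) := by field_simp
    rw [h3] at h2
    nlinarith
  -- the second exponential
  have f2 : (t : ℝ) * (Pw w / L + 1 / L ^ 3) ≤ (1 + ε) * L + 2 := by
    have h0 : 0 ≤ Pw w / L + 1 / L ^ 3 := by positivity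
    have h2 := mul_le_mul_of_nonneg_right ht2 h0
    have h3 : ((1 + ε) * L ^ 2 / Pw w + 1) * (Pw w / L + 1 / L ^ 3) = (1 + ε) * L + (1 + ε) / (Pw w * L) + Pw w / L + 1 / L ^ 3 := by
      field_simp
      ring
    rw [h3] at h2
    have h4 : (1 + ε) / (Pw w * L) ≤ 1 / 5 := by
      rw [div_le_iff₀ (by positivity)]
      nlinarith
    have h5 : Pw w / L ≤ 1 := by rw [div_le_one hL0]; linarith
    have h6 : 1 / L ^ 3 ≤ 1 / 5 := by
      apply one_div_le_one_div_of_le (by norm_num)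
      nlinarith [mul_nonneg hL0.le hL0.le]
    linarith
  have f3 : Real.exp 1 * (t * (Pw w / L + 1 / L ^ 3)) - κ ≤ -((1 + ε / 2) * L) - 1 := by
    have h1 := exp_one_lt
    have h2 := Real.exp_pos 1
    have h3 := mul_le_mul_of_nonneg_left f2 h2.le
    have h4 : Real.exp 1 * ((1 + ε) * L + 2) ≤ 2.7183 * ((1 + ε) * L + 2) := mul_le_mul_of_nonneg_right h1.le (by positivity)
    nlinarith
  have f4 : Real.exp (-(t * (Pw w / L * (1 - K / L)))) ≤ Real.exp (-((1 + ε / 2) * L) - 1) := by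
    apply Real.exp_le_exp.2
    rw [div_le_iff₀ (by positivity)] at g2
    linarith
  have f5 := Real.exp_le_exp.2 f3
  have f6 : Real.exp (-((1 + ε / 2) * L) - 1) ≤ 1 / 2 * Real.exp (-((1 + ε / 2) * L)) := by
    rw [Real.exp_sub]
    have h1 : (2 : ℝ) ≤ Real.exp 1 := by have := Real.add_one_le_exp (1 : ℝ); linarith
    rw [div_le_iff₀ (Real.exp_pos _)]
    have h2 := Real.exp_pos (-((1 + ε / 2) * L))
    nlinarith
  have f7 : Real.exp (-(t * (Pw w / L * (1 - K / L)))) + Real.exp (Real.exp 1 * (t * (Pw w / L + 1 / L ^ 3)) - κ) ≤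
      Real.exp (-((1 + ε / 2) * L)) := by linarith
  have f8 := mul_le_mul_of_nonneg_left (mul_le_mul_of_nonneg_left f7 hι) hN0.le
  refine f8.trans (le_of_eq ?_)
  rw [Real.rpow_def_of_pos hN0, ← hL]
  have f9 : (N : ℝ) * Real.exp (-((1 + ε / 2) * L)) = Real.exp (L * (-(ε / 2))) := by
    rw [e0, ← Real.exp_add]
    congr 1
    ring
  rw [← f9]
  ring

/-- the size of a weight constant -/
lemma Cr_ratio {w M : ℕ} {L δ K : ℝ} {q c b n : ℕ} (h : Cr w M L δ K q c b n) :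
    ((cls M c b q).card : ℝ) / ((cls M c b q).card - (hitc M c b q n).card) ≤ Real.exp ((1 + 3 * δ) * (Pw w / L)) ∧
    ((hitc M c b q n).card : ℝ) / (cls M c b q).card ≤ (1 + δ) * (Pw w / L) ∧
    (hitc M c b q n).card < (cls M c b q).card := by
  classical
  have h1 := h.theta
  have h2 := h.upos
  have hδ := h.hδ
  have hδ1 := h.hδ1
  have hL := h.hL
  have hP := one_le_Pw w
  have h3 : (0 : ℝ) < (cls M c b q).card := by exact_mod_cast h2
  have h4 : ((hitc M c b q n).card : ℝ) < (cls M c b q).card := by nlinarith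
  have h5 : (hitc M c b q n).card < (cls M c b q).card := by exact_mod_cast h4
  refine ⟨?_, ?_, h5⟩
  · obtain ⟨v, hv, hv'⟩ : ∃ v ∈ cls M c b q, v ∉ hitc M c b q n := by
      by_contra hcon
      push Not at hcon
      have := card_le_card (show cls M c b q ⊆ hitc M c b q n from hcon)
      omega
    have h6 := h.wt_le v hv
    rw [wt_eq _ _ v hv, if_neg hv', mul_one] at h6
    exact h6
  · obtain ⟨b1, _, b3, _, b5⟩ := h.bds
    rw [div_le_iff₀ h3]
    refine b1.trans ?_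
    have e1 : (1 + δ) * (Pw w / L) * ((1 - δ / 4) * (q / M)) ≤ (1 + δ) * (Pw w / L) * ((cls M c b q).card : ℝ) :=
      mul_le_mul_of_nonneg_left b3 (by positivity)
    refine le_trans ?_ e1
    have e2 : (1 + δ / 4) * (q / M * (Pw w / L)) = (1 + δ / 4) * ((Pw w / L) * (q / M)) := by ring
    have e3 : (1 + δ) * (Pw w / L) * ((1 - δ / 4) * (q / M)) = ((1 + δ) * (1 - δ / 4)) * ((Pw w / L) * (q / M)) := by ring
    rw [e2, e3]
    apply mul_le_mul_of_nonneg_right _ (by positivity)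
    nlinarith

end Run7.h251.KW
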