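import Pool.Agent.Run7.h251.KW.OneTwo

/-!
# Limited independence, part 6: below the threshold
-/

set_option autoImplicit false

namespace Run7.h251.KW

open Finset Filter
open Pool.Agent.Run7.h931.RS (Pw Fw one_le_Pw one_le_Fw wt wt_nonneg ev_log sv sharp)
open Pool.Agent.Run7.h931.RL (Cr cls hitc hitc_sub lft sur sur_le sur_at lf lf_add lft_eq Zr Zr_le rest rest_at rest_eq)

/-- below the threshold -/
theorem two_F (ε : ℝ) (hε : 0 < ε) (hε1 : ε ≤ 1) : ∃ w₀ : ℕ, ∀ T a w : ℕ, w₀ ≤ w → ∀ M : ℕ, 1 ≤ M → (∀ p : ℕ, p.Prime → (p ∣ M ↔ p ≤ w)) →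
    ∀ᶠ N : ℕ in atTop, ∀ q : ℕ,
    (N : ℝ) ≤ q * Real.log N ^ a → q ≤ N → ∀ (κ m : ℕ) (c b : ℕ → ℕ), 8 * Real.log N ≤ κ → (∀ j, b j ≤ T * N) →
      ∀ (ι : Type) [Fintype ι] (σ : ι → ℕ → ℕ), Wise κ m (fun j => cls M (c j) (b j) q) σ →
      Pw w * sur M c m ≤ (1 - ε) * Real.log N ^ 2 →
      ((univ.filter fun i => ¬ ((N : ℝ) ^ (1 - Pw w * sur M c m / Real.log N ^ 2 - ε) ≤ (surv N m (σ i)).card ∧
          ((surv N m (σ i)).card : ℝ) ≤ (N : ℝ) ^ (1 - Pw w * sur M c m / Real.log N ^ 2 + ε))).card : ℝ) ≤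
        ε * Fintype.card ι := by
  classical
  obtain ⟨η, hη⟩ : ∃ η, η = ε / 200 := ⟨_, rfl⟩
  have hη0 : 0 < η := by rw [hη]; positivity
  have hη1 : η ≤ 1 / 200 := by rw [hη]; linarith
  obtain ⟨w₀, _, hw₀⟩ := sharp η hη0
  refine ⟨w₀, fun T a w hw M hM1 hM => ?_⟩
  have hsh := hw₀ w hw
  have hP := one_le_Pw w
  obtain ⟨δ, hδ⟩ : ∃ δ, δ = η / (8 * Pw w) := ⟨_, rfl⟩
  have hδ0 : 0 < δ := by rw [hδ]; positivity
  have hδη : δ ≤ η / 8 := by
    rw [hδ]
    apply div_le_div_of_nonneg_left hη0.le (by norm_num) (by linarith)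
  have hδP : 4 * δ * Pw w = η / 2 := by rw [hδ]; field_simp; norm_num
  obtain ⟨K, hK, h1⟩ := two_E T a w M hM1 hM ε δ η hε1 hδ0 (by linarith) (by linarith) hη0 (by linarith) hsh (by
    rw [hδP]
    have := Real.abs_exp_sub_one_sub_id_le (x := η / 2) (by rw [abs_of_pos (by positivity)]; linarith)
    have := (abs_le.1 this).2
    nlinarith)
  obtain ⟨K', hK', h2⟩ := meanF T a w M hM1 hM
  have hMr : (0 : ℝ) < M := by exact_mod_cast hM1
  filter_upwards [h1, h2, eventually_ge_atTop 3, ev_log ((Real.log (16 * M)) / (ε / 2)),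
    ev_log ((K' + 1 + Real.log (4 / ε)) / ε), ev_log (K' + 10), ev_log (Real.log (1000 / ε) * 2)] with
    N g1 g2 g3 g4 g6 g7 g8 q hq hqN κ m c b hκ hb ι _ σ hσ hm
  obtain ⟨ρ, hρ, hρr⟩ := rest_at M hM1 (fun j : Fin m => c j)
  obtain ⟨S, hS⟩ : ∃ S : Finset (Fin m), S = univ.filter fun j : Fin m => (ρ + c j).Coprime M := ⟨_, rfl⟩
  have hSc : S.card = sur M c m := by rw [← rest_eq, ← hρr, hS]; rfl
  obtain ⟨n, R, a1, a2, a3, a4, a4', a4'', e, a5, a6⟩ := g1 q hq hqN m (fun j : Fin m => c j) (fun j : Fin m => b j) (fun j => hb j) ρ hρ S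
    (fun j => by rw [hS, mem_filter]; simp) (by rw [hSc]; exact hm)
  have b1 := g2 q hq hqN κ m c b hb ι σ hσ (sur M c m) le_rfl
  obtain ⟨L, hL⟩ : ∃ L, L = Real.log (N : ℝ) := ⟨_, rfl⟩
  obtain ⟨Λ, hΛ⟩ : ∃ Λ : ℝ, Λ = Pw w * sur M c m := ⟨_, rfl⟩
  rw [← hL] at g4 g6 g7 g8 hm a4' b1 hκ ⊢
  rw [← hΛ] at hm ⊢
  have hN0 : (0 : ℝ) < N := by exact_mod_cast (by omega : 0 < N)
  have hL10 : 10 ≤ L := by linarith
  have hL0 : 0 < L := by linarith
  have hNL : (N : ℝ) = Real.exp L := by rw [hL, Real.exp_log hN0]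
  have hΛ0 : (0 : ℝ) ≤ Λ := by rw [hΛ]; positivity
  have hm2 : Λ / L ^ 2 ≤ 1 := by
    rw [div_le_one (by positivity)]
    have : 0 ≤ ε * L ^ 2 := by positivity
    linarith
  have hΛL : Λ / L ≤ (1 - ε) * L := by
    rw [div_le_iff₀ hL0]
    linarith
  have hι : (0 : ℝ) ≤ Fintype.card ι := Nat.cast_nonneg _
  have hR0 : (0 : ℝ) < R := lt_of_lt_of_le (by positivity) a1
  -- the first bad set
  obtain ⟨B1, hB1⟩ : ∃ B1 : Finset ι, B1 = univ.filter fun i => 1 / 2 * (R : ℝ) <
    |∑ k ∈ range R, ∏ j : Fin m, wt (cls M (c j) (b j) q) (hitc M (c j) (b j) q (n k)) (σ i j) - R| := ⟨_, rfl⟩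
  obtain ⟨B3, hB3⟩ : ∃ B3 : Finset ι, B3 = univ.filter fun i => (N : ℝ) ^ (1 - Λ / L ^ 2 + ε) < ((surv N m (σ i)).card : ℝ) := ⟨_, rfl⟩
  have hUpos : ∀ j < m, 0 < (cls M (c j) (b j) q).card := fun j hj => a4 ⟨j, hj⟩
  have hrat : ∀ k < R, ∀ j : Fin m, ((cls M (c j) (b j) q).card : ℝ) / ((cls M (c j) (b j) q).card - (hitc M (c j) (b j) q (n k)).card) ≤
      (if j ∈ S then Real.exp ((1 + 3 * δ) * (Pw w / L)) else 1) ∧
      ((hitc M (c j) (b j) q (n k)).card : ℝ) / (cls M (c j) (b j) q).card ≤ (if j ∈ S then (1 + δ) * (Pw w / L) else 0) ∧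
      (hitc M (c j) (b j) q (n k)).card < (cls M (c j) (b j) q).card := by
    intro k hk j
    by_cases hj : j ∈ S
    · rw [if_pos hj, if_pos hj]
      exact Cr_ratio (a4' k hk j hj)
    · rw [if_neg hj, if_neg hj]
      have h3 := a4'' k hk j hj
      try simp only at h3
      have h4 := a4 j
      try simp only at h4
      rw [h3, card_empty, Nat.cast_zero, sub_zero, zero_div]
      refine ⟨?_, le_rfl, h4⟩
      rw [div_self]
      exact_mod_cast h4.ne'
  have hSL : (S.card : ℝ) * (Pw w / L) ≤ (1 - ε) * L := by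
    have : (S.card : ℝ) * (Pw w / L) = Λ / L := by rw [hSc, hΛ]; ring
    rw [this]
    exact hΛL
  have c1 : (B1.card : ℝ) ≤ ε / 2 * Fintype.card ι := by
    have key := chebF hσ hUpos (fun k j => hitc M (c j) (b j) q (n k)) (fun k j => hitc_sub _ _ _ _ _)
      (fun k hk j hj => (hrat k hk ⟨j, hj⟩).2.2) e a5 (7 * η) a6 (Real.exp L) L (ε / 1000)
      (Real.one_le_exp hL0.le) (fun k hk => by
        calc ∏ j : Fin m, ((cls M (c j) (b j) q).card : ℝ) / ((cls M (c j) (b j) q).card - (hitc M (c j) (b j) q (n k)).card) ≤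
            ∏ j : Fin m, (if j ∈ S then Real.exp ((1 + 3 * δ) * (Pw w / L)) else 1) := by
              apply Finset.prod_le_prod
              · intro j _
                have h3 : ((hitc M (c j) (b j) q (n k)).card : ℝ) < (cls M (c j) (b j) q).card := by exact_mod_cast (hrat k hk j).2.2
                exact div_nonneg (Nat.cast_nonneg _) (by linarith)
              · exact fun j _ => (hrat k hk j).1
          _ = Real.exp (S.card * ((1 + 3 * δ) * (Pw w / L))) := by
              rw [prod_ite, prod_const, prod_const_one, mul_one, ← Real.exp_nat_mul, filter_mem_eq_inter, univ_inter]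
          _ ≤ Real.exp L := by
              apply Real.exp_le_exp.2
              have h3 : (S.card : ℝ) * ((1 + 3 * δ) * (Pw w / L)) = (1 + 3 * δ) * (S.card * (Pw w / L)) := by ring
              rw [h3]
              have h4 := mul_le_mul_of_nonneg_left hSL (by linarith : (0 : ℝ) ≤ 1 + 3 * δ)
              have h5 : (1 + 3 * δ) * (1 - ε) ≤ 1 := by nlinarith
              have h6 := mul_le_mul_of_nonneg_right h5 hL0.le
              linarith) (fun k hk => by
        calc ∑ j ∈ range m, ((hitc M (c j) (b j) q (n k)).card : ℝ) / (cls M (c j) (b j) q).card =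
            ∑ j : Fin m, ((hitc M (c j) (b j) q (n k)).card : ℝ) / (cls M (c j) (b j) q).card := by rw [Finset.sum_range]
          _ ≤ ∑ j : Fin m, (if j ∈ S then (1 + δ) * (Pw w / L) else 0) := sum_le_sum fun j _ => (hrat k hk j).2.1
          _ = S.card * ((1 + δ) * (Pw w / L)) := by
              rw [← sum_filter, sum_const, nsmul_eq_mul, filter_mem_eq_inter, univ_inter]
          _ ≤ L := by
              have h3 : (S.card : ℝ) * ((1 + δ) * (Pw w / L)) = (1 + δ) * (S.card * (Pw w / L)) := by ring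
              rw [h3]
              have h4 := mul_le_mul_of_nonneg_left hSL (by linarith : (0 : ℝ) ≤ 1 + δ)
              have h5 : (1 + δ) * (1 - ε) ≤ 1 := by nlinarith
              have h6 := mul_le_mul_of_nonneg_right h5 hL0.le
              linarith) (by
        rw [← Real.exp_nat_mul, ← Real.exp_add]
        have h3 := exp_one_lt
        have h4 : Real.exp 1 * (2 * L) ≤ 2.7183 * (2 * L) := mul_le_mul_of_nonneg_right h3.le (by positivity)
        have h5 : ((2 : ℕ) : ℝ) * L + (Real.exp 1 * (2 * L) - κ) ≤ -Real.log (1000 / ε) := by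
          push_cast
          linarith
        refine (Real.exp_le_exp.2 h5).trans (le_of_eq ?_)
        rw [Real.exp_neg, Real.exp_log (by positivity), inv_div])
    rw [← hB1] at key
    have h3 : (B1.card : ℝ) * (1 / 2) ^ 2 * (R : ℝ) ^ 2 ≤ ((7 * η + 3 * (ε / 1000)) * Fintype.card ι) * (R : ℝ) ^ 2 := by linarith
    have h4 := le_of_mul_le_mul_right h3 (by positivity)
    rw [hη] at h4
    nlinarith [mul_nonneg hε.le hι]
  have c3 : (B3.card : ℝ) ≤ ε / 4 * Fintype.card ι := by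
    have d1 : (B3.card : ℝ) * (N : ℝ) ^ (1 - Λ / L ^ 2 + ε) ≤ ∑ i, ((surv N m (σ i)).card : ℝ) := by
      rw [← nsmul_eq_mul, ← sum_const, hB3]
      refine le_trans (sum_le_sum (fun i hi => ?_)) (sum_le_sum_of_subset_of_nonneg (filter_subset _ _) fun i _ _ => Nat.cast_nonneg _)
      exact (mem_filter.1 hi).2.le
    have d2 := d1.trans b1
    have f1 : Real.exp (-(sur M c m * (Pw w / L * (1 - K' / L)))) ≤ Real.exp (K' - Λ / L) := by
      apply Real.exp_le_exp.2
      have e1 : (sur M c m : ℝ) * (Pw w / L * (1 - K' / L)) = Λ / L - K' * (Λ / L ^ 2) := by rw [hΛ]; field_simp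
      rw [e1]
      have e2 : K' * (Λ / L ^ 2) ≤ K' := mul_le_of_le_one_right (by linarith) hm2
      linarith
    have f2 : Real.exp (Real.exp 1 * (sur M c m * (Pw w / L + 1 / L ^ 3)) - κ) ≤ Real.exp (K' - Λ / L) := by
      apply Real.exp_le_exp.2
      have e1 : (sur M c m : ℝ) * (Pw w / L + 1 / L ^ 3) ≤ L + 1 := by
        have e2 : (sur M c m : ℝ) * (Pw w / L) = Λ / L := by rw [hΛ]; ring
        have e3 : (sur M c m : ℝ) ≤ Λ := by
          rw [hΛ]
          exact le_mul_of_one_le_left (Nat.cast_nonneg _) hP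
        have e4 : (sur M c m : ℝ) * (1 / L ^ 3) ≤ 1 := by
          rw [mul_one_div, div_le_one (by positivity)]
          have e5 : Λ ≤ L ^ 2 := by rwa [div_le_one (by positivity)] at hm2
          have e6 : L ^ 2 ≤ L ^ 3 := pow_le_pow_right₀ (by linarith) (by norm_num)
          linarith
        have e5 : Λ / L ≤ L := by nlinarith
        rw [mul_add, e2]
        linarith
      have e2 := exp_one_lt
      have e3 : Real.exp 1 * (sur M c m * (Pw w / L + 1 / L ^ 3)) ≤ 2.7183 * (L + 1) :=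
        mul_le_mul e2.le e1 (by positivity) (by norm_num)
      have e4 : Λ / L ≤ L := by nlinarith
      linarith
    rw [Real.rpow_def_of_pos hN0, ← hL] at d2
    have d3 : (N : ℝ) * (Fintype.card ι * (Real.exp (-(sur M c m * (Pw w / L * (1 - K' / L)))) +
        Real.exp (Real.exp 1 * (sur M c m * (Pw w / L + 1 / L ^ 3)) - κ))) ≤
        (Real.exp (K' + 1 - ε * L) * Fintype.card ι) * Real.exp (L * (1 - Λ / L ^ 2 + ε)) := by
      have e1 : Real.exp (-(sur M c m * (Pw w / L * (1 - K' / L)))) + Real.exp (Real.exp 1 * (sur M c m * (Pw w / L + 1 / L ^ 3)) - κ) ≤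
          Real.exp (K' + 1 - Λ / L) := by
        have e2 : Real.exp (K' + 1 - Λ / L) = Real.exp 1 * Real.exp (K' - Λ / L) := by
          rw [← Real.exp_add]
          congr 1
          ring
        have e3 : (2 : ℝ) ≤ Real.exp 1 := by have := Real.add_one_le_exp (1 : ℝ); linarith
        have e4 := Real.exp_pos (K' - Λ / L)
        rw [e2]
        nlinarith
      have e2 := mul_le_mul_of_nonneg_left (mul_le_mul_of_nonneg_left e1 hι) hN0.le
      refine e2.trans (le_of_eq ?_)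
      have e3 : K' + 1 - ε * L + L * (1 - Λ / L ^ 2 + ε) = L + (K' + 1 - Λ / L) := by field_simp; ring
      calc (N : ℝ) * (Fintype.card ι * Real.exp (K' + 1 - Λ / L)) = Fintype.card ι * Real.exp (L + (K' + 1 - Λ / L)) := by
            rw [Real.exp_add, ← hNL]; ring
        _ = Fintype.card ι * Real.exp (K' + 1 - ε * L + L * (1 - Λ / L ^ 2 + ε)) := by rw [e3]
        _ = _ := by rw [Real.exp_add]; ring
    have d4 := le_of_mul_le_mul_right (d2.trans d3) (Real.exp_pos _)
    refine d4.trans (mul_le_mul_of_nonneg_right ?_ hι)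
    rw [div_le_iff₀ hε] at g6
    have d6 : Real.exp (K' + 1 - ε * L) ≤ Real.exp (-Real.log (4 / ε)) := Real.exp_le_exp.2 (by linarith)
    rw [Real.exp_neg, Real.exp_log (by positivity), inv_div] at d6
    exact d6
  -- every other sequence is good
  have c4 : (univ.filter fun i => ¬ ((N : ℝ) ^ (1 - Λ / L ^ 2 - ε) ≤ (surv N m (σ i)).card ∧
      ((surv N m (σ i)).card : ℝ) ≤ (N : ℝ) ^ (1 - Λ / L ^ 2 + ε))) ⊆ B1 ∪ B3 := by
    intro i hs
    rw [mem_filter] at hs
    obtain ⟨_, hs⟩ := hs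
    by_contra hnot
    rw [mem_union, not_or] at hnot
    obtain ⟨n1, n3⟩ := hnot
    rw [hB1, mem_filter, not_and, not_lt] at n1
    rw [hB3, mem_filter, not_and, not_lt] at n3
    apply hs
    refine ⟨?_, n3 (mem_univ i)⟩
    have n1' := (abs_le.1 (n1 (mem_univ i))).1
    have f1 := Zr_le w M q (fun j : Fin m => c j) (fun j : Fin m => b j) n R L δ K S a4' a4'' a4 a3 N a2 (fun j : Fin m => σ i j) (by
      rw [Fintype.mem_piFinset]
      exact fun j => hσ.1 i j j.2)
    unfold Zr at f1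
    rw [surv_sv] at f1
    have f2 : (1 + 3 * δ) * (Pw w / L) * S.card ≤ Λ / L + ε / 2 * L := by
      have e1 : (1 + 3 * δ) * (Pw w / L) * S.card = Λ / L + 3 * δ * (Λ / L) := by rw [hSc, hΛ]; ring
      rw [e1]
      have e6 : Λ / L ≤ L := by nlinarith
      have e7 : 3 * δ * (Λ / L) ≤ ε / 2 * L := mul_le_mul (by linarith) e6 (by positivity) (by positivity)
      linarith
    have f3 := Real.exp_le_exp.2 f2
    have f4 : (0 : ℝ) ≤ (surv N m (σ i)).card := Nat.cast_nonneg _
    have f5 : (N : ℝ) / (16 * M) ≤ ((surv N m (σ i)).card : ℝ) * Real.exp (Λ / L + ε / 2 * L) := by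
      have e1 := f1.trans (mul_le_mul_of_nonneg_left f3 f4)
      have e2 : (N : ℝ) / (16 * M) = (N / (8 * M)) / 2 := by field_simp; norm_num
      linarith
    rw [Real.rpow_def_of_pos hN0, ← hL]
    rw [div_le_iff₀ (by positivity)] at g4
    have f6 : L * (1 - Λ / L ^ 2 - ε) ≤ L - Real.log (16 * M) - (Λ / L + ε / 2 * L) := by
      have : L * (1 - Λ / L ^ 2 - ε) = L - Λ / L - ε * L := by field_simp
      rw [this]
      linarith
    refine (Real.exp_le_exp.2 f6).trans ?_
    rw [Real.exp_sub, Real.exp_sub, Real.exp_log (by positivity), ← hNL, div_le_iff₀ (Real.exp_pos _)]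
    exact f5
  have c5 : ((univ.filter fun i => ¬ ((N : ℝ) ^ (1 - Λ / L ^ 2 - ε) ≤ (surv N m (σ i)).card ∧
      ((surv N m (σ i)).card : ℝ) ≤ (N : ℝ) ^ (1 - Λ / L ^ 2 + ε))).card : ℝ) ≤ B1.card + B3.card := by
    exact_mod_cast (card_le_card c4).trans (card_union_le B1 B3)
  refine c5.trans ?_
  have : 0 ≤ ε / 4 * Fintype.card ι := by positivity
  linarith

end Run7.h251.KW
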